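import Mathlib
import Pool.Agent.Y201.VL.Param

/-! # Very general cubic hypersurfaces: no lines of contact three over odd extensions -/

set_option autoImplicit false

namespace Pool.Agent.Results.MP_2619d0_ag.NoLinearParameter

open Pool.Agent.Y201.VL in
theorem final {n : ℕ} (F : MvPolynomial (Fin (n + 1 + 1)) ℂ)
    (hF : F.IsHomogeneous 3)
    (key : ∀ (M : Type) [Field M] [Algebra ℂ M]
      (ψ : (MvPolynomial (Fin (n + 1)) ℂ ⧸ Ideal.span {dh ℂ n F}) →ₐ[ℂ] M),
      Function.Injective ψ →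
      Odd (Module.finrank (IntermediateField.adjoin ℂ (Set.range ψ)) M) →
      ∀ v : Fin (n + 1) → M, v ≠ 0 → ¬ (Polynomial.X ^ 3 : Polynomial M) ∣
        res (fun j => ψ (Ideal.Quotient.mk _ (MvPolynomial.X j))) v (dh ℂ n F))
    {L : Type} [Field L] [Algebra ℂ L]
    (ψ : (MvPolynomial (Fin (n + 1)) ℂ ⧸ Ideal.span {dh ℂ n F}) →ₐ[ℂ]
      FractionRing (Polynomial L))
    (hψ : Function.Injective ψ)
    (hodd : Odd (Module.finrank (IntermediateField.adjoin ℂ (Set.range ψ))
      (FractionRing (Polynomial L))))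
    (q : Polynomial L) (g : Fin (n + 1) → Polynomial L) (hq : q ≠ 0) (hq1 : q.natDegree ≤ 1)
    (hg : ∀ j, (g j).natDegree ≤ 1)
    (h : ∀ j, ψ (Ideal.Quotient.mk _ (MvPolynomial.X j)) *
        algebraMap (Polynomial L) (FractionRing (Polynomial L)) q =
      algebraMap (Polynomial L) (FractionRing (Polynomial L)) (g j)) : False := by
  have hx : MvPolynomial.aeval (fun j => ψ (Ideal.Quotient.mk _ (MvPolynomial.X j)))
      (dh ℂ n F) = 0 := by
    have h1 : MvPolynomial.aeval (fun j => ψ (Ideal.Quotient.mk _ (MvPolynomial.X j))) =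
        ψ.comp (Ideal.Quotient.mkₐ ℂ (Ideal.span {dh ℂ n F})) := by
      apply MvPolynomial.algHom_ext
      intro j
      rw [MvPolynomial.aeval_X]
      rfl
    rw [h1, AlgHom.comp_apply]
    have h2 : Ideal.Quotient.mkₐ ℂ (Ideal.span {dh ℂ n F}) (dh ℂ n F) = 0 :=
      Ideal.Quotient.eq_zero_iff_mem.mpr (Ideal.mem_span_singleton_self _)
    rw [h2, map_zero]
  refine key (FractionRing (Polynomial L)) ψ hψ hodd _
    (dir_ne_zero ψ (fun j => Ideal.Quotient.mk _ (MvPolynomial.X j)) ?_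
      hodd q g hq hq1 hg h) ?_
  · have h1 : Set.range (fun j : Fin (n + 1) =>
        (Ideal.Quotient.mk (Ideal.span {dh ℂ n F})) (MvPolynomial.X j)) =
        (Ideal.Quotient.mkₐ ℂ (Ideal.span {dh ℂ n F})) ''
          (Set.range (MvPolynomial.X : Fin (n + 1) → MvPolynomial (Fin (n + 1)) ℂ)) := by
      rw [← Set.range_comp]
      rfl
    rw [h1, Algebra.adjoin_image, MvPolynomial.adjoin_range_X, Algebra.map_top,
      AlgHom.range_eq_top]
    exact Ideal.Quotient.mkₐ_surjective _ _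
  · rw [line_of_linear F hF _ hx q g hq hq1 hg h]
    exact dvd_zero _

/-- the polynomial `F(1, x_1, …, x_{n+1})` -/
noncomputable def chart {n : ℕ} (F : MvPolynomial (Fin (n + 1 + 1)) ℂ) :
    MvPolynomial (Fin (n + 1)) ℂ :=
  MvPolynomial.aeval
    (Fin.cases (motive := fun _ => MvPolynomial (Fin (n + 1)) ℂ) 1 (fun j => MvPolynomial.X j)) F

/-- the coordinate ring `ℂ[x_1, …, x_{n+1}]/(F(1, x))` of the chart -/
abbrev CoordRing {n : ℕ} (F : MvPolynomial (Fin (n + 1 + 1)) ℂ) : Type :=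
  MvPolynomial (Fin (n + 1)) ℂ ⧸ Ideal.span {chart F}

/-- the coordinates of the point given by `ψ` -/
noncomputable def coord {n : ℕ} {F : MvPolynomial (Fin (n + 1 + 1)) ℂ} {M : Type} [Field M]
    [Algebra ℂ M] (ψ : CoordRing F →ₐ[ℂ] M) (j : Fin (n + 1)) : M :=
  ψ (Ideal.Quotient.mk _ (MvPolynomial.X j))

/-- `ψ` is injective and `M` is a finite extension of odd degree of the field generated by its
image -/
def OddPoint {n : ℕ} {F : MvPolynomial (Fin (n + 1 + 1)) ℂ} {M : Type} [Field M]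
    [Algebra ℂ M] (ψ : CoordRing F →ₐ[ℂ] M) : Prop :=
  Function.Injective ψ ∧ Odd (Module.finrank (IntermediateField.adjoin ℂ (Set.range ψ)) M)

/-- over extensions of odd degree no line meets the hypersurface at its generic point with
multiplicity three -/
def NoTripleLine {n : ℕ} (F : MvPolynomial (Fin (n + 1 + 1)) ℂ) : Prop :=
  ∀ (M : Type) [Field M] [Algebra ℂ M] (ψ : CoordRing F →ₐ[ℂ] M), OddPoint ψ →
    ∀ v : Fin (n + 1) → M, v ≠ 0 →
      ¬ (Polynomial.X ^ 3 : Polynomial M) ∣ MvPolynomial.aeval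
        (fun j => Polynomial.C (coord ψ j) + Polynomial.C (v j) * Polynomial.X) (chart F)

/-- no point of odd degree over the field of fractions of `L[t]` has homogeneous coordinates of
degree at most one in `t` -/
def NoLinearParametrization {n : ℕ} (F : MvPolynomial (Fin (n + 1 + 1)) ℂ) : Prop :=
  ∀ (L : Type) [Field L] [Algebra ℂ L] (ψ : CoordRing F →ₐ[ℂ] FractionRing (Polynomial L)),
    OddPoint ψ →
      ¬ ∃ (q : Polynomial L) (g : Fin (n + 1) → Polynomial L),
        q ≠ 0 ∧ q.natDegree ≤ 1 ∧ (∀ j, (g j).natDegree ≤ 1) ∧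
        ∀ j, coord ψ j * algebraMap (Polynomial L) (FractionRing (Polynomial L)) q =
          algebraMap (Polynomial L) (FractionRing (Polynomial L)) (g j)

/-- For every `n ≥ 1` there are countably many polynomial conditions such that a cubic form in
`n + 2` variables which satisfies them has the two properties above. -/
theorem result :
    ∀ n : ℕ, 1 ≤ n →
    ∃ P : ℕ → MvPolynomial ((Fin (n + 1 + 1)) →₀ ℕ) ℂ,
      (∀ k, ∃ G : MvPolynomial (Fin (n + 1 + 1)) ℂ, G.IsHomogeneous 3 ∧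
          MvPolynomial.eval (fun m => G.coeff m) (P k) ≠ 0) ∧
      ∀ F : MvPolynomial (Fin (n + 1 + 1)) ℂ, F.IsHomogeneous 3 →
        (∀ k, MvPolynomial.eval (fun m => F.coeff m) (P k) ≠ 0) →
        NoTripleLine F ∧ NoLinearParametrization F := by
  intro n hn
  classical
  obtain ⟨P, hP, hPF⟩ := Pool.Agent.Y201.VL.very_general (Fin (n + 1 + 1)) 3
  refine ⟨P, hP, fun F hF hk => ?_⟩
  have hai := hPF F hk
  have hlast := Pool.Agent.Y201.VL.geo_last hn F hF hai
  have han := Pool.Agent.Y201.VL.geo hn F hF hai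
  have key : ∀ (M : Type) [Field M] [Algebra ℂ M]
      (ψ : (MvPolynomial (Fin (n + 1)) ℂ ⧸ Ideal.span {Pool.Agent.Y201.VL.dh ℂ n F}) →ₐ[ℂ] M),
      Function.Injective ψ →
      Odd (Module.finrank (IntermediateField.adjoin ℂ (Set.range ψ)) M) →
      ∀ v : Fin (n + 1) → M, v ≠ 0 → ¬ (Polynomial.X ^ 3 : Polynomial M) ∣
        Pool.Agent.Y201.VL.res (fun j => ψ (Ideal.Quotient.mk _ (MvPolynomial.X j))) v
          (Pool.Agent.Y201.VL.dh ℂ n F) := by
    intro M _ _ ψ hψ hodd v hv h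
    exact Pool.Agent.Y201.VL.no_contact _ han hlast ψ hψ hodd v hv h
  refine ⟨fun M _ _ ψ hψ => key M ψ hψ.1 hψ.2, fun L _ _ ψ hψ hex => ?_⟩
  obtain ⟨q, g, hq, hq1, hg, h⟩ := hex
  exact final F hF key ψ hψ.1 hψ.2 q g hq hq1 hg h

end Pool.Agent.Results.MP_2619d0_ag.NoLinearParameter
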